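import Mathlib

/-! Integer lemmas for the equation `σ(x) = k x + 5` with few prime factors. -/

namespace Pool.Agent.P.MP_df609a_nt

/-- Both odd primes exceed `M`. -/
theorem big_prime {M u v s t : ℤ} (hM : 4 ≤ M) (hu : 3 - M ≤ u) (hv : 3 - M ≤ v) (hv0 : v ≠ 0)
    (hs : 4 ≤ s) (ht : 4 ≤ t)
    (h : (M * (M - 1) - u * v) * s * t = u * s + v * t + 6) : 0 ≤ u := by
  by_contra hu0
  rw [not_le] at hu0
  have hst : 0 < s * t := by positivity
  rcases lt_or_gt_of_ne hv0 with h1 | h1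
  · have hw : 0 < M * (M - 1) - u * v := by nlinarith
    have : 0 < (M * (M - 1) - u * v) * s * t := by rw [mul_assoc]; positivity
    nlinarith
  · have hw : v ≤ M * (M - 1) - u * v := by nlinarith
    have h2 : v * (s * t) ≤ (M * (M - 1) - u * v) * (s * t) := mul_le_mul_of_nonneg_right hw hst.le
    have h3 : 4 ≤ v * t := by nlinarith
    have h4 : v * t * 4 ≤ v * t * s := mul_le_mul_of_nonneg_left hs (by linarith)
    nlinarith

/-- Large exponents are impossible. -/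
theorem small_exp {M u v w s t : ℤ} (hM : 4 ≤ M) (hu : 1 ≤ u) (hv : 1 ≤ v) (hw : 1 ≤ w)
    (hw' : w = M * (M - 1) - u * v) (hs : (M + u) ^ 3 ≤ s) (ht : 4 ≤ t)
    (h : w * s * t = u * s + v * t + 6) : False := by
  have h0 : (M + 1) ^ 3 ≤ (M + u) ^ 3 := by gcongr
  have hs0 : 2 * (M * (M - 1)) + 6 ≤ s := by
    nlinarith [mul_nonneg (sq_nonneg M) (show 0 ≤ M by linarith), sq_nonneg M]
  have hs1 : 0 < s := by nlinarith
  have hi : 0 < w * t - u := by
    have e : s * (w * t - u) = v * t + 6 := by linarith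
    have : 0 < s * (w * t - u) := by rw [e]; positivity
    exact (pos_iff_pos_of_mul_pos this).1 hs1
  have hj : 0 < w * s - v := by
    have e : t * (w * s - v) = u * s + 6 := by linarith
    have : 0 < t * (w * s - v) := by rw [e]; positivity
    exact (pos_iff_pos_of_mul_pos this).1 (by linarith)
  have e : (w * s - v) * (w * t - u) = M * (M - 1) + 5 * w := by
    linear_combination w * h + hw'
  have h1 : w * s - v ≤ M * (M - 1) + 5 * w := by rw [← e]; nlinarith
  have h2 : v ≤ M * (M - 1) := by nlinarith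
  have h3 : s - 5 ≤ w * (s - 5) := by nlinarith
  nlinarith

/-- The bound on `w` in the case of two squares. -/
theorem w_lt {M u v w : ℤ} (hM : 4 ≤ M) (hu : 1 ≤ u) (huv : u ≤ v) (hw : 1 ≤ w)
    (hw' : w = M * (M - 1) - u * v)
    (h : w * (M + u + 1) * (M + v + 1) = u * (M + u + 1) + v * (M + v + 1) + 6) : w < M + 1 := by
  obtain ⟨s, hs⟩ : ∃ s, s = M + u + 1 := ⟨_, rfl⟩
  obtain ⟨t, ht⟩ : ∃ t, t = M + v + 1 := ⟨_, rfl⟩
  rw [← hs, ← ht] at h
  have hs0 : 0 < s := by linarith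
  have ht0 : 0 < t := by linarith
  have h1 : u * s < t * s := mul_lt_mul_of_pos_right (by linarith) hs0
  have h2 : v ≤ (M - 1) * s := by nlinarith
  have h3 : v * t ≤ (M - 1) * s * t := mul_le_mul_of_nonneg_right h2 ht0.le
  have h4 : 6 ≤ s * t := by nlinarith
  have h5 : w * (s * t) < (M + 1) * (s * t) := by nlinarith
  exact lt_of_mul_lt_mul_right h5 (by linarith)

/-- The case `x = 2^a p^2 q^2`: one Vieta jump. -/
theorem jump {M u v w : ℤ} (hM : 4 ≤ M) (hM2 : Even M) (hu : 1 ≤ u) (hv : 1 ≤ v) (hu2 : Odd u)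
    (hv2 : Odd v) (hw : 1 ≤ w) (hw' : w = M * (M - 1) - u * v)
    (h : w * (M + u + 1) * (M + v + 1) = u * (M + u + 1) + v * (M + v + 1) + 6) : False := by
  have hK : w < M + 1 := by
    rcases le_total u v with e | e
    · exact w_lt hM hu e hw hw' h
    · exact w_lt hM hv e hw (by rw [hw']; ring) (by linarith)
  obtain ⟨X, hX⟩ : ∃ X, X = 2 * M + u + v + 2 := ⟨_, rfl⟩
  obtain ⟨Y, hY⟩ : ∃ Y, Y = (M + 1) * (w + 3) - X := ⟨_, rfl⟩
  have e : X * Y = w ^ 2 + 3 * (M + 1) * w + 6 * (M + 1) + 2 := by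
    subst hY hX hw'
    linear_combination h
  have hX0 : 4 ≤ X := by linarith
  have hY0 : 0 < Y := by
    have : 0 < X * Y := by rw [e]; positivity
    exact (pos_iff_pos_of_mul_pos this).1 (by linarith)
  have hY2 : Even Y := by
    have h1 : Odd w := by rw [hw']; exact (hM2.mul_right _).sub_odd (hu2.mul hv2)
    have h2 : Even X := by
      obtain ⟨a, ha⟩ := hu2
      obtain ⟨b, hb⟩ := hv2
      exact ⟨M + a + b + 2, by rw [hX, ha, hb]; ring⟩
    rw [hY]
    exact ((h1.add_odd (by decide)).mul_left _).sub h2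
  obtain ⟨c, hc⟩ := hY2
  rcases (show Y = 2 ∨ 4 ≤ Y by omega) with h2 | h2
  · have : X = (M + 1) * (w + 3) - 2 := by linarith
    rw [h2, this] at e
    nlinarith
  · have h3 : 0 ≤ (X - 4) * (Y - 4) := mul_nonneg (by linarith) (by linarith)
    have h4 : X + Y = (M + 1) * (w + 3) := by linarith
    nlinarith

/-- The case `x = 2^a p^b q^c`, `σ(x) = 2 x + 5`. -/
theorem even_two {M p q s t : ℤ} (hM : 4 ≤ M) (hM2 : Even M) (hp : 3 ≤ p) (hq : 3 ≤ q)
    (hp2 : Odd p) (hq2 : Odd q) (hs : s = p + 1 ∨ p ^ 3 ≤ s) (ht : t = q + 1 ∨ q ^ 3 ≤ t)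
    (h : (M - 1) * (p * s + 1) * (q * t + 1) = M * ((p - 1) * s + 1) * ((q - 1) * t + 1) + 5) :
    False := by
  obtain ⟨u, rfl⟩ : ∃ u, p = M + u := ⟨p - M, by ring⟩
  obtain ⟨v, rfl⟩ : ∃ v, q = M + v := ⟨q - M, by ring⟩
  have hu2 : Odd u := by simpa using hp2.sub_even hM2
  have hv2 : Odd v := by simpa using hq2.sub_even hM2
  have hu0 : u ≠ 0 := by rintro rfl; simp at hu2
  have hv0 : v ≠ 0 := by rintro rfl; simp at hv2
  have c1 : (3 : ℤ) ^ 3 ≤ (M + u) ^ 3 := by gcongr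
  have c2 : (3 : ℤ) ^ 3 ≤ (M + v) ^ 3 := by gcongr
  have hs4 : 4 ≤ s := by rcases hs with e | e <;> linarith
  have ht4 : 4 ≤ t := by rcases ht with e | e <;> linarith
  obtain ⟨w, hw'⟩ : ∃ w, w = M * (M - 1) - u * v := ⟨_, rfl⟩
  have e : w * s * t = u * s + v * t + 6 := by
    rw [hw']; linear_combination h
  have e' : w * t * s = v * t + u * s + 6 := by linarith
  have hw'' : w = M * (M - 1) - v * u := by rw [hw']; ring
  have hu : 1 ≤ u := by
    have := big_prime hM (by linarith) (by linarith) hv0 hs4 ht4 (hw' ▸ e)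
    omega
  have hv : 1 ≤ v := by
    have := big_prime hM (by linarith) (by linarith) hu0 ht4 hs4 (hw'' ▸ e')
    omega
  have hw : 1 ≤ w := by
    have : 0 < w * (s * t) := by rw [← mul_assoc, e]; positivity
    exact (pos_iff_pos_of_mul_pos this).2 (by positivity)
  rcases hs with hs | hs
  · rcases ht with ht | ht
    · subst hs ht
      exact jump hM hM2 hu hv hu2 hv2 hw hw' e
    · exact small_exp hM hv hu hw hw'' ht hs4 e'
  · exact small_exp hM hu hv hw hw' hs ht4 e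

/-- The case `x = 2^a 3^b q^c`, `c ≥ 4`, `σ(x) = 3 x + 5`. -/
theorem even_three {U V q s : ℤ} (hU : 1 ≤ U) (hV : 1 ≤ V) (hq : 5 ≤ q) (hs : q ^ 3 ≤ s)
    (h : (U - 1) * (V - 1) * (q * s + 1) = U * V * ((q - 1) * s + 1) + 10) : False := by
  obtain ⟨j, hj⟩ : ∃ j, j = U * V - q * (U + V - 1) := ⟨_, rfl⟩
  have e : s * j = U + V + 9 := by rw [hj]; linear_combination h
  have hs0 : q ^ 2 + q + 12 ≤ s := by nlinarith
  have hq2 : 2 * q + 12 ≤ s := by nlinarith
  have hj0 : 1 ≤ j := by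
    have : 0 < s * j := by rw [e]; positivity
    exact (pos_iff_pos_of_mul_pos this).1 (by linarith)
  have e2 : (U - q) * (V - q) = q ^ 2 - q + j := by rw [hj]; ring
  have h1 : s - 1 ≤ (s - 1) * j := by nlinarith
  have hpos : 0 < (U - q) * (V - q) := by rw [e2]; nlinarith
  rcases mul_pos_iff.1 hpos with ⟨a, b⟩ | ⟨a, b⟩
  · have : 0 ≤ (U - q - 1) * (V - q - 1) := mul_nonneg (by linarith) (by linarith)
    nlinarith
  · nlinarith

end Pool.Agent.P.MP_df609a_nt
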