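import Pool.Agent.P.MP_df609a_nt.Three

/-! At least four distinct prime factors. -/

namespace Pool.Agent.P.MP_df609a_nt

open Finset

theorem prime_ge {p m : ℕ} (hp : p.Prime) (h : m ≤ p) (hm : ¬ m.Prime) : m + 1 ≤ p := by
  rcases h.lt_or_eq with e | e
  · exact e
  · exact absurd (e ▸ hp) hm

theorem prime_small {p : ℕ} (hp : p.Prime) :
    p = 2 ∨ p = 3 ∨ p = 5 ∨ p = 7 ∨ p = 11 ∨ p = 13 ∨ 17 ≤ p := by
  by_cases h : 17 ≤ p
  · simp [h]
  · have := hp.two_le
    rw [not_le] at h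
    interval_cases p <;> first | omega | exact absurd hp (by norm_num)

theorem odd_cast {p : ℕ} (hp : p.Prime) (h : 2 < p) : Odd (p : ℤ) := by
  exact_mod_cast hp.odd_of_ne_two h.ne'

/-- The equation in terms of the factorisation. -/
theorem eqn {x : ℕ} (h : (∑ d ∈ x.divisors, d) % x = 5) : 5 < x ∧ ∃ k : ℤ,
    ∏ p ∈ x.primeFactors, G p (x.factorization p + 1) =
      k * ∏ p ∈ x.primeFactors, (p : ℤ) ^ x.factorization p + 5 := by
  have h0 : x ≠ 0 := by rintro rfl; simp at h
  refine ⟨h ▸ Nat.mod_lt _ (Nat.pos_of_ne_zero h0), ((∑ d ∈ x.divisors, d) / x : ℕ), ?_⟩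
  have e1 : ∏ p ∈ x.primeFactors, (p : ℤ) ^ x.factorization p = x := by
    exact_mod_cast (Nat.prod_primeFactors_pow_factorization h0).symm
  have e2 : ∏ p ∈ x.primeFactors, G p (x.factorization p + 1) = (∑ d ∈ x.divisors, d : ℕ) := by
    rw [Nat.sum_divisors h0]
    simp [G]
  rw [e1, e2]
  have := Nat.div_add_mod' (∑ d ∈ x.divisors, d) x
  rw [h] at this
  exact_mod_cast this.symm

theorem three_nat {p q r : ℕ} {k : ℤ} {a b c : ℕ} (hp : p.Prime) (hq : q.Prime) (hr : r.Prime)
    (h1 : p < q) (h2 : q < r) (ha : 1 ≤ a) (hb : 1 ≤ b) (hc : 1 ≤ c)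
    (h : G p (a + 1) * G q (b + 1) * G r (c + 1) = k * ((p : ℤ) ^ a * q ^ b * r ^ c) + 5) :
    False := by
  have s1 := prime_small hp
  have s2 := prime_small hq
  have s3 := prime_small hr
  have o2 := hq.odd_of_ne_two (by omega)
  have o3 := hr.odd_of_ne_two (by omega)
  rw [Nat.odd_iff] at o2 o3
  refine three (by omega) (by omega) (by omega) (by omega) ?_ (odd_cast hq (by omega))
    (odd_cast hr (by omega)) ha hb hc h
  rcases hp.two_le.lt_or_eq with e | e
  · exact Or.inr (odd_cast hp e)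
  · left; omega

theorem two_nat {p q : ℕ} {k : ℤ} {a b : ℕ} (hp : p.Prime) (hq : q.Prime)
    (h1 : p < q) (ha : 1 ≤ a) (hb : 1 ≤ b)
    (h : G p (a + 1) * G q (b + 1) = k * ((p : ℤ) ^ a * q ^ b) + 5) : False := by
  have s1 := prime_small hp
  have s2 := prime_small hq
  exact two (by omega) (by omega) (odd_cast hq (by omega)) ha hb h

theorem four_le {x : ℕ} (h : (∑ d ∈ x.divisors, d) % x = 5) : 4 ≤ x.primeFactors.card := by
  obtain ⟨hx, k, e⟩ := eqn h
  have h0 : x ≠ 0 := by omega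
  have pr : ∀ {p}, p ∈ x.primeFactors → p.Prime ∧ 1 ≤ x.factorization p := fun hp =>
    ⟨Nat.prime_of_mem_primeFactors hp, (Nat.prime_of_mem_primeFactors hp).factorization_pos_of_dvd
      h0 (Nat.dvd_of_mem_primeFactors hp)⟩
  by_contra hc
  rcases (show x.primeFactors.card = 0 ∨ x.primeFactors.card = 1 ∨ x.primeFactors.card = 2 ∨
    x.primeFactors.card = 3 by omega) with c | c | c | c
  · rw [card_eq_zero, Nat.primeFactors_eq_empty] at c
    omega
  · obtain ⟨p, hp⟩ := card_eq_one.1 c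
    obtain ⟨p1, p2⟩ := pr (p := p) (by simp [hp])
    have e1 := Nat.prod_primeFactors_pow_factorization h0
    rw [hp, prod_singleton] at e1
    rw [hp, prod_singleton, prod_singleton] at e
    refine one (Nat.prime_iff_prime_int.1 p1) (by exact_mod_cast p1.two_le) p2 ?_ e
    rw [e1] at hx
    exact_mod_cast hx
  · obtain ⟨p, q, n, hp⟩ := card_eq_two.1 c
    obtain ⟨p1, p2⟩ := pr (p := p) (by simp [hp])
    obtain ⟨q1, q2⟩ := pr (p := q) (by simp [hp])
    rw [hp, prod_pair n, prod_pair n] at e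
    rcases lt_or_gt_of_ne n with l | l
    · exact two_nat p1 q1 l p2 q2 e
    · exact two_nat (k := k) q1 p1 l q2 p2 (by linear_combination e)
  · obtain ⟨p, q, r, n1, n2, n3, hp⟩ := card_eq_three.1 c
    obtain ⟨p1, p2⟩ := pr (p := p) (by simp [hp])
    obtain ⟨q1, q2⟩ := pr (p := q) (by simp [hp])
    obtain ⟨r1, r2⟩ := pr (p := r) (by simp [hp])
    have nm : p ∉ ({q, r} : Finset ℕ) := by simp [n1, n2]
    rw [hp, prod_insert nm, prod_insert nm, prod_pair n3, prod_pair n3] at e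
    rcases lt_or_gt_of_ne n1 with l1 | l1 <;> rcases lt_or_gt_of_ne n2 with l2 | l2 <;>
      rcases lt_or_gt_of_ne n3 with l3 | l3
    · exact three_nat (k := k) p1 q1 r1 l1 l3 p2 q2 r2 (by linear_combination e)
    · exact three_nat (k := k) p1 r1 q1 l2 l3 p2 r2 q2 (by linear_combination e)
    · omega
    · exact three_nat (k := k) r1 p1 q1 l2 l1 r2 p2 q2 (by linear_combination e)
    · exact three_nat (k := k) q1 p1 r1 l1 l2 q2 p2 r2 (by linear_combination e)
    · omega
    · exact three_nat (k := k) q1 r1 p1 l3 l2 q2 r2 p2 (by linear_combination e)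
    · exact three_nat (k := k) r1 q1 p1 l3 l1 r2 q2 p2 (by linear_combination e)

end Pool.Agent.P.MP_df609a_nt
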