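import Pool.Agent.P.MP_df609a_nt.Core

/-! The equation `σ(x) = k x + 5` has no solution with at most three prime factors. -/

namespace Pool.Agent.P.MP_df609a_nt

open Finset

/-- The geometric sum `1 + p + ... + p^(n-1)`. -/
def G (p : ℤ) (n : ℕ) : ℤ := ∑ i ∈ range n, p ^ i

theorem G_succ (p : ℤ) (n : ℕ) : G p (n + 1) = p * G p n + 1 := geom_sum_succ

theorem G_pow (p : ℤ) (n : ℕ) : p ^ n = (p - 1) * G p n + 1 := by
  have := geom_sum_mul p n
  unfold G
  linarith

theorem G_nonneg {p : ℤ} (hp : 0 ≤ p) (n : ℕ) : 0 ≤ G p n := sum_nonneg fun _ _ => by positivity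

theorem G_pos {p : ℤ} (hp : 0 ≤ p) {n : ℕ} (hn : 1 ≤ n) : 1 ≤ G p n := by
  obtain ⟨m, rfl⟩ : ∃ m, n = m + 1 := ⟨n - 1, by omega⟩
  rw [G_succ]
  nlinarith [G_nonneg hp m]

theorem G_odd {p : ℤ} (hp : Odd p) (n : ℕ) : Even (G p n) ↔ Even n := by
  induction n with
  | zero => simp [G]
  | succ n ih =>
    rw [G_succ, Int.even_add_one, Nat.even_add_one, Int.even_mul, ih]
    have := Int.not_even_iff_odd.2 hp
    tauto

theorem even_exp {p : ℤ} (hp : Odd p) {n : ℕ} (h : Odd (G p (n + 1))) : Even n := by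
  have := (G_odd hp (n + 1)).not.1 (Int.not_even_iff_odd.2 h)
  rwa [Nat.even_add_one, not_not] at this

theorem G_even {p : ℤ} (hp : 0 ≤ p) {n : ℕ} (hn : 1 ≤ n) (he : Even n) :
    G p n = p + 1 ∨ p ^ 3 ≤ G p n := by
  rcases (show n = 2 ∨ ∃ m, n = m + 1 + 1 + 1 + 1 by
    obtain ⟨c, rfl⟩ := he
    rcases (show c = 1 ∨ 2 ≤ c by omega) with e | e
    · left; omega
    · exact Or.inr ⟨c + c - 4, by omega⟩) with rfl | ⟨m, rfl⟩
  · left; simp [G, sum_range_succ, add_comm]
  · right
    have h1 := G_pos hp (show 1 ≤ m + 1 by omega)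
    rw [G_succ, G_succ, G_succ]
    have h3 : 0 ≤ p ^ 3 := by positivity
    nlinarith [mul_le_mul_of_nonneg_left h1 h3, sq_nonneg p]

/-- `σ(p^a) / p^a < p / (p - 1)`. -/
theorem G_lt (p : ℤ) (n : ℕ) : (p - 1) * G p (n + 1) = p * p ^ n - 1 := by
  have := G_pow p (n + 1)
  rw [pow_succ] at this
  linarith

theorem G_le {p m : ℤ} (hm : 2 ≤ m) (hp : m ≤ p) (n : ℕ) : (m - 1) * G p (n + 1) < m * p ^ n := by
  have h1 := G_nonneg (show 0 ≤ p by linarith) n
  rw [G_succ, G_pow p n]
  nlinarith [mul_nonneg (sub_nonneg.2 hp) h1]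

theorem mod5 {p : ℤ} (hp : p = 3 ∨ p = 7 ∨ p = 13) {n : ℕ} (he : Even n) :
    ¬ (5 : ℤ) ∣ G p (n + 1) := by
  obtain ⟨c, rfl⟩ := he
  have h1 : p ^ (c + c) % 5 = 1 ∨ p ^ (c + c) % 5 = 4 := by
    induction c with
    | zero => simp
    | succ c ih =>
      rw [show c + 1 + (c + 1) = c + c + 2 by ring, pow_add]
      generalize p ^ (c + c) = y at *
      rcases hp with rfl | rfl | rfl <;> omega
  have h2 := G_lt p (c + c)
  generalize p ^ (c + c) = y at *
  generalize G p (c + c + 1) = z at *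
  rcases hp with rfl | rfl | rfl <;> omega

theorem mod3 {p : ℤ} (hp : p = 5 ∨ p = 11) {n : ℕ} (he : Even n) : G p (n + 1) % 3 = 1 := by
  obtain ⟨c, rfl⟩ := he
  have h1 : p ^ (c + c) % 3 = 1 := by
    induction c with
    | zero => simp
    | succ c ih =>
      rw [show c + 1 + (c + 1) = c + c + 2 by ring, pow_add]
      generalize p ^ (c + c) = y at *
      rcases hp with rfl | rfl <;> omega
  have h2 := G_lt p (c + c)
  generalize p ^ (c + c) = y at *
  generalize G p (c + c + 1) = z at *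
  rcases hp with rfl | rfl <;> omega

theorem mod3_two (n : ℕ) : G 2 n % 3 = 0 ∨ G 2 n % 3 = 1 := by
  induction n with
  | zero => simp [G]
  | succ n ih => rw [G_succ]; omega

theorem pow_dvd {p : ℤ} {n : ℕ} (hn : 1 ≤ n) : ∃ y, p ^ n = p * y :=
  dvd_pow_self p (by omega)

theorem one {p k : ℤ} {a : ℕ} (hp : Prime p) (h2 : 2 ≤ p) (ha : 1 ≤ a) (hx : 5 < p ^ a)
    (h : G p (a + 1) = k * p ^ a + 5) : False := by
  have h1 := G_le le_rfl h2 a
  have h3 := G_pos (show 0 ≤ p by linarith) ha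
  have e : G p (a + 1) = p ^ a + G p a := by rw [G_succ, G_pow p a]; ring
  have k1 : k < 2 := by
    by_contra hk
    nlinarith
  have k2 : 0 < k := by
    by_contra hk
    nlinarith
  obtain rfl : k = 1 := by omega
  obtain ⟨m, rfl⟩ : ∃ m, a = m + 1 := ⟨a - 1, by omega⟩
  have e2 : p * G p m = 4 := by linarith [G_succ p m]
  have e3 : p ∣ 2 := hp.dvd_of_dvd_pow (n := 2) ⟨G p m, by linarith⟩
  obtain rfl : p = 2 := le_antisymm (Int.le_of_dvd (by norm_num) e3) h2
  have := mod3_two m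
  omega

theorem two {p q k : ℤ} {a b : ℕ} (hp : p = 2 ∨ 3 ≤ p ∧ 5 ≤ q) (hq : 3 ≤ q) (hq2 : Odd q)
    (ha : 1 ≤ a) (hb : 1 ≤ b) (h : G p (a + 1) * G q (b + 1) = k * (p ^ a * q ^ b) + 5) : False := by
  have h2 : 2 ≤ p := by omega
  have s1 := G_pos (show 0 ≤ p by linarith) ha
  have t1 := G_pos (show 0 ≤ q by linarith) hb
  have P0 : p ≤ p ^ a := le_self_pow₀ (by linarith) (by omega)
  have Q0 : q ≤ q ^ b := le_self_pow₀ (by linarith) (by omega)
  have e1 : G p (a + 1) = p ^ a + G p a := by rw [G_succ, G_pow p a]; ring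
  have e2 : G q (b + 1) = q ^ b + G q b := by rw [G_succ, G_pow q b]; ring
  have x0 : 0 < p ^ a * q ^ b := by positivity
  have k2 : 1 < k := by
    by_contra hk
    have : (p ^ a + 1) * (q ^ b + 1) ≤ G p (a + 1) * G q (b + 1) := by
      rw [e1, e2]; gcongr
    nlinarith
  have g1 := G_pos (show 0 ≤ p by linarith) (show 1 ≤ a + 1 by omega)
  have g2 := G_pos (show 0 ≤ q by linarith) (show 1 ≤ b + 1 by omega)
  rcases hp with rfl | ⟨hp, hq5⟩
  · have b1 := G_le le_rfl h2 a
    have b2 := G_le (m := 3) (by norm_num) hq b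
    have b3 := mul_lt_mul'' b1 b2 (by linarith) (by linarith)
    have k3 : k < 3 := by
      by_contra hk
      nlinarith
    obtain rfl : k = 2 := by omega
    have o : Odd (G 2 (a + 1) * G q (b + 1)) := by rw [h]; exact ⟨2 ^ a * q ^ b + 2, by ring⟩
    have ev := G_even (show 0 ≤ q by linarith) hb (even_exp hq2 (Int.odd_mul.1 o).2)
    obtain ⟨y, hy⟩ := pow_dvd (p := 2) ha
    have e3 := G_lt 2 a
    rw [G_succ q b, G_pow q b, show G 2 (a + 1) = 4 * y - 1 by linarith, hy] at h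
    generalize G q b = t at *
    have e4 : (4 * y - q) * t = 6 := by linarith
    have q3 : (3 : ℤ) ^ 3 ≤ q ^ 3 := by gcongr
    have t4 : 4 ≤ t := by rcases ev with e | e <;> linarith
    have d1 : 0 < 4 * y - q := by
      by_contra hk
      nlinarith
    have d2 : 4 * y - q < 2 := by
      by_contra hk
      nlinarith
    have d3 : 4 * y - q = 1 := by omega
    rw [d3] at e4
    rcases ev with e | e
    · omega
    · linarith
  · have b1 := G_le (m := 3) (by norm_num) hp a
    have b2 := G_le (m := 5) (by norm_num) hq5 b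
    have b3 := mul_lt_mul'' b1 b2 (by linarith) (by linarith)
    nlinarith

theorem three {p q r k : ℤ} {a b c : ℕ} (hp : p = 2 ∨ p = 3 ∧ 5 ≤ q ∨ 5 ≤ p ∧ 7 ≤ q)
    (hq : q = 3 ∨ q = 5 ∧ 7 ≤ r ∨ 7 ≤ q ∧ 11 ≤ r) (hr : 5 ≤ r)
    (hr' : r = 5 ∨ r = 7 ∨ r = 11 ∨ r = 13 ∨ 17 ≤ r) (hp2 : p = 2 ∨ Odd p) (hq2 : Odd q)
    (hr2 : Odd r) (ha : 1 ≤ a) (hb : 1 ≤ b) (hc : 1 ≤ c)
    (h : G p (a + 1) * G q (b + 1) * G r (c + 1) = k * (p ^ a * q ^ b * r ^ c) + 5) : False := by
  have h2 : 2 ≤ p := by omega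
  have h3 : 3 ≤ q := by omega
  have s1 := G_pos (show 0 ≤ p by linarith) ha
  have t1 := G_pos (show 0 ≤ q by linarith) hb
  have u1 := G_pos (show 0 ≤ r by linarith) hc
  have P0 : p ≤ p ^ a := le_self_pow₀ (by linarith) (by omega)
  have Q0 : q ≤ q ^ b := le_self_pow₀ (by linarith) (by omega)
  have R0 : r ≤ r ^ c := le_self_pow₀ (by linarith) (by omega)
  have e1 : G p (a + 1) = p ^ a + G p a := by rw [G_succ, G_pow p a]; ring
  have e2 : G q (b + 1) = q ^ b + G q b := by rw [G_succ, G_pow q b]; ring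
  have e3 : G r (c + 1) = r ^ c + G r c := by rw [G_succ, G_pow r c]; ring
  have x0 : 0 < p ^ a * q ^ b * r ^ c := by positivity
  have k2 : 1 < k := by
    by_contra hk
    have : p ^ a * q ^ b * (r ^ c + 1) ≤ G p (a + 1) * G q (b + 1) * G r (c + 1) := by
      rw [e1, e2, e3]; gcongr <;> linarith
    have : 2 * 3 ≤ p ^ a * q ^ b := by gcongr <;> linarith
    nlinarith
  have g1 := G_pos (show 0 ≤ p by linarith) (show 1 ≤ a + 1 by omega)
  have g2 := G_pos (show 0 ≤ q by linarith) (show 1 ≤ b + 1 by omega)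
  have g3 := G_pos (show 0 ≤ r by linarith) (show 1 ≤ c + 1 by omega)
  have bd : ∀ {l m n : ℤ}, 2 ≤ l → l ≤ p → 2 ≤ m → m ≤ q → 2 ≤ n → n ≤ r →
      (l - 1) * (m - 1) * (n - 1) * k < l * m * n := by
    intro l m n l2 lp m2 mq n2 nr
    have b1 := G_le l2 lp a
    have b2 := G_le m2 mq b
    have b3 := G_le n2 nr c
    have l1 : 0 < l - 1 := by linarith
    have m1 : 0 < m - 1 := by linarith
    have n1 : 0 < n - 1 := by linarith
    have b4 := mul_lt_mul'' (mul_lt_mul'' b1 b2 (by positivity) (by positivity)) b3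
      (by positivity) (by positivity)
    have b5 : (l - 1) * (m - 1) * (n - 1) * (G p (a + 1) * G q (b + 1) * G r (c + 1)) <
        l * m * n * (p ^ a * q ^ b * r ^ c) := by linarith
    rw [h] at b5
    have b6 : 0 < (l - 1) * (m - 1) * (n - 1) := by positivity
    refine lt_of_mul_lt_mul_right (a := p ^ a * q ^ b * r ^ c) ?_ x0.le
    nlinarith
  have k3 : k < 4 := by
    have := bd (l := 2) (m := 3) (n := 5) le_rfl h2 (by norm_num) h3 (by norm_num) hr
    omega
  have od : Odd (G p (a + 1) * G q (b + 1) * G r (c + 1)) →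
      Odd (G p (a + 1)) ∧ Even b ∧ Even c := fun o =>
    ⟨(Int.odd_mul.1 (Int.odd_mul.1 o).1).1, even_exp hq2 (Int.odd_mul.1 (Int.odd_mul.1 o).1).2,
      even_exp hr2 (Int.odd_mul.1 o).2⟩
  rcases (show k = 2 ∨ k = 3 by omega) with rfl | rfl
  · obtain ⟨o1, eb, ec⟩ := od (by rw [h]; exact ⟨p ^ a * q ^ b * r ^ c + 2, by ring⟩)
    rcases hp with rfl | ⟨rfl, hq5⟩ | ⟨hp, hq7⟩
    · obtain ⟨y, hy⟩ := pow_dvd (p := 2) ha
      have e4 := G_lt 2 a
      refine even_two (M := 4 * y) (p := q) (q := r) (by linarith) ⟨2 * y, by ring⟩ h3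
        (by linarith) hq2 hr2 (G_even (by linarith) hb eb) (G_even (by linarith) hc ec) ?_
      rw [G_succ q b, G_succ r c, G_pow q b, G_pow r c,
        show G 2 (a + 1) = 4 * y - 1 by linarith, hy] at h
      linarith
    · have ea := even_exp (p := 3) (by decide) o1
      rcases hq with rfl | ⟨rfl, hr7⟩ | ⟨hq7, hr11⟩
      · omega
      · have f5 : r = 7 ∨ r = 13 → False := fun hr => by
          obtain ⟨y, hy⟩ := pow_dvd (p := 5) hb
          have d : (5 : ℤ) ∣ G 3 (a + 1) * G 5 (b + 1) * G r (c + 1) :=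
            ⟨2 * (3 ^ a * y * r ^ c) + 1, by rw [h, hy]; ring⟩
          have p5 : Prime (5 : ℤ) := by norm_num
          rcases p5.dvd_or_dvd d with d | d
          · rcases p5.dvd_or_dvd d with d | d
            · exact mod5 (Or.inl rfl) ea d
            · rw [G_succ] at d; omega
          · exact mod5 (Or.inr hr) ec d
        rcases hr' with rfl | rfl | rfl | rfl | hr17
        · omega
        · exact f5 (Or.inl rfl)
        · obtain ⟨y, hy⟩ := pow_dvd (p := 3) ha
          have m1 : G 3 (a + 1) % 3 = 1 := by rw [G_succ]; omega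
          have m2 := mod3 (Or.inl rfl) eb
          have m3 := mod3 (Or.inr rfl) ec
          have m4 := congrArg (· % 3) h
          simp only [Int.mul_emod (G 3 (a + 1) * G 5 (b + 1)), Int.mul_emod (G 3 (a + 1)), m1, m2,
            m3] at m4
          rw [hy, mul_assoc 3, mul_assoc 3] at m4
          omega
        · exact f5 (Or.inr rfl)
        · have := bd (l := 3) (m := 5) (n := 17) (by norm_num) le_rfl (by norm_num) le_rfl
            (by norm_num) hr17
          omega
      · have := bd (l := 3) (m := 7) (n := 11) (by norm_num) le_rfl (by norm_num) hq7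
          (by norm_num) hr11
        omega
    · have := bd (l := 5) (m := 7) (n := 11) (by norm_num) hp (by norm_num) hq7
        (by norm_num) (by omega)
      omega
  · have hp' : p = 2 := by
      by_contra hp'
      have := bd (l := 3) (m := 5) (n := 7) (by norm_num) (by omega) (by norm_num) (by omega)
        (by norm_num) (by omega)
      omega
    subst hp'
    have hq' : q = 3 := by
      by_contra hq'
      have := bd (l := 2) (m := 5) (n := 7) le_rfl le_rfl (by norm_num) (by omega)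
        (by norm_num) (by omega)
      omega
    subst hq'
    obtain ⟨y, hy⟩ := pow_dvd (p := 2) ha
    obtain ⟨-, -, ec⟩ := od (by rw [h, hy]; exact ⟨3 * (y * 3 ^ b * r ^ c) + 2, by ring⟩)
    rcases G_even (show 0 ≤ r by linarith) hc ec with e | e
    · have m1 := mod3_two (a + 1)
      have m2 : G 3 (b + 1) % 3 = 1 := by rw [G_succ]; omega
      have m3 : G r (c + 1) % 3 = 0 ∨ G r (c + 1) % 3 = 1 := by
        rw [G_succ, e]
        rcases (show r % 3 = 0 ∨ r % 3 = 1 ∨ r % 3 = 2 by omega) with f | f | f <;>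
          simp [Int.add_emod, Int.mul_emod, f]
      have m4 := congrArg (· % 3) h
      simp only [Int.mul_emod (G 2 (a + 1) * G 3 (b + 1)), Int.mul_emod (G 2 (a + 1)), m2] at m4
      rcases m1 with m1 | m1 <;> rcases m3 with m3 | m3 <;> rw [m1, m3] at m4 <;> omega
    · have e4 := G_lt 2 a
      have e5 := G_lt 3 b
      refine even_three (U := 2 * 2 ^ a) (V := 3 * 3 ^ b) (by linarith) (by linarith) hr e ?_
      rw [← e4, ← e5, ← G_succ, ← G_pow]
      linarith

end Pool.Agent.P.MP_df609a_nt
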